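import Pool.Agent.W5h32.PT.Om
import Pool.Agent.Y318.MN.Attr

/-!
# Diffeomorphisms normalising a smooth torus action
-/

set_option autoImplicit false
set_option linter.unusedSectionVars false

open scoped Manifold ContDiff Topology
open Set Filter MeasureTheory

universe u

namespace Pool.Agent.W5h32.PT

open Pool.Agent.H718R2.G Pool.Agent.TH80.OMS Pool.Agent.Y318.MN Pool.Agent.W564.SC
  Pool.Agent.TH80.CLX
open Pool.Agent.H728R2.FA (omegaLim FiniteAttractors)

/-- A smooth action of the torus `ℝ^k / ℤ^k` on the manifold `N` of dimension `n`: a smooth action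
of `ℝ^k` for which the integral vectors act trivially. -/
structure IsTorusAction (n k : ℕ) (N : Type u) [TopologicalSpace N] [ChartedSpace (V n) N]
    (a : (Fin k → ℝ) → N → N) : Prop where
  smooth : ContMDiff (𝓘(ℝ, Fin k → ℝ).prod (𝓡 n)) (𝓡 n) ∞
    (fun p : (Fin k → ℝ) × N => a p.1 p.2)
  zero : ∀ x, a 0 x = x
  add : ∀ s t x, a (s + t) x = a s (a t x)
  int : ∀ (z : Fin k → ℤ) x, a (fun i => (z i : ℝ)) x = x

variable {n k : ℕ} {N : Type u} [TopologicalSpace N] [ChartedSpace (V n) N]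
  {a : (Fin k → ℝ) → N → N} (ha : IsTorusAction n k N a)

include ha in
theorem IsTorusAction.isAct : IsAct a :=
  ⟨ha.smooth.continuous, ha.zero, ha.add, ha.int⟩

include ha in
theorem act_smooth (t : Fin k → ℝ) : ContMDiff (𝓡 n) (𝓡 n) ∞ (a t) :=
  ha.smooth.comp (contMDiff_const.prodMk contMDiff_id)

/-- the diffeomorphism `a t` -/
noncomputable def actD (ha : IsTorusAction n k N a) (r : ℕ∞) (t : Fin k → ℝ) : DiffM n N r where
  toFun := a t
  invFun := a (-t)
  left_inv x := act_neg ha.isAct t x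
  right_inv x := act_neg' ha.isAct t x
  contMDiff_toFun := (act_smooth ha t).of_le (by exact_mod_cast le_top)
  contMDiff_invFun := (act_smooth ha (-t)).of_le (by exact_mod_cast le_top)

/-- the diffeomorphism `a θ ∘ F` -/
noncomputable def rotD (ha : IsTorusAction n k N a) {r : ℕ∞} (F : DiffM n N r) (θ : Fin k → ℝ) : DiffM n N r :=
  F.trans (actD ha r θ)

theorem rotD_apply {r : ℕ∞} (F : DiffM n N r) (θ : Fin k → ℝ) (x : N) :
    rotD ha F θ x = a θ (F x) := rfl

theorem rotD_coe {r : ℕ∞} (F : DiffM n N r) (θ : Fin k → ℝ) :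
    (rotD ha F θ : N → N) = rot a F θ := rfl

theorem rotD_fam {r : ℕ∞} (F : DiffM n N r) : IsFam n N r (rotD ha F) := by
  intro y
  have hr : (r : WithTop ℕ∞) ≤ ∞ := by exact_mod_cast le_top
  have h1 : ContMDiff (𝓘(ℝ, Fin k → ℝ).prod (𝓡 n)) (𝓘(ℝ, Fin k → ℝ).prod (𝓡 n)) r
      (fun q : (Fin k → ℝ) × N => (q.1, F q.2)) :=
    contMDiff_fst.prodMk (F.contMDiff.comp contMDiff_snd)
  exact ((ha.smooth.of_le hr).comp h1).contMDiffAt

/-- small rotations of `F` stay in a neighbourhood of `F` -/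
theorem rot_mem [T2Space N] [CompactSpace N] [IsManifold (𝓡 n) ∞ N] {r : ℕ∞} (hr : 1 ≤ r)
    (F : DiffM n N r) (U : Set (DiffM n N r)) (hU : IsOpen[strongTop n N r] U) (hFU : F ∈ U) :
    ∃ κ : ℝ, 0 < κ ∧ ∀ θ : Fin k → ℝ, ‖θ‖ < κ → rotD ha F θ ∈ U := by
  have h0 : rotD ha F 0 = F := by
    ext y
    rw [rotD_apply, ha.zero]
  rcases isEmpty_or_nonempty N with hN | ⟨⟨z⟩⟩
  · refine ⟨1, one_pos, fun θ _ => ?_⟩
    have : rotD ha F θ = F := by
      ext y
      exact (hN.false y).elim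
    rwa [this]
  · exact fam_mem r hr (rotD ha F) (rotD_fam ha F) z U hU (by rwa [h0])

theorem secondCountable (n : ℕ) (N : Type u) [TopologicalSpace N] [ChartedSpace (V n) N]
    [CompactSpace N] : SecondCountableTopology N :=
  ChartedSpace.secondCountable_of_sigmaCompact (V n) N

/-- a residual set of parameters contains arbitrarily small ones -/
theorem residual_small {P : (Fin k → ℝ) → Prop} (hP : ∀ᶠ θ in residual (Fin k → ℝ), P θ) {κ : ℝ}
    (hκ : 0 < κ) : ∃ θ : Fin k → ℝ, ‖θ‖ < κ ∧ P θ := by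
  have h1 : Dense {θ | P θ} := dense_of_mem_residual hP
  obtain ⟨θ, hθ, hd⟩ := Metric.dense_iff.1 h1 0 κ hκ
  exact ⟨θ, by simpa [dist_zero_right] using hθ, hd⟩

section crit

variable {h : N → ℝ} (hh : ContMDiff (𝓡 n) 𝓘(ℝ, ℝ) ∞ h) (hi : ∀ t x, h (a t x) = h x)

include ha hh hi in
theorem crit_of_act {t : Fin k → ℝ} {y : N} (hy : IsCrit n h (a t y)) : IsCrit n h y := by
  have e : h = h ∘ a t := funext fun x => (hi t x).symm
  have h1 : MDifferentiableAt (𝓡 n) (𝓡 n) (a t) y :=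
    (act_smooth ha t).contMDiffAt.mdifferentiableAt (by simp)
  have h2 : MDifferentiableAt (𝓡 n) 𝓘(ℝ, ℝ) h (a t y) := hh.contMDiffAt.mdifferentiableAt (by simp)
  have h3 := mfderiv_comp y h2 h1
  have hy' : mfderiv (𝓡 n) 𝓘(ℝ, ℝ) h (a t y) = 0 := hy
  rw [hy', ← e] at h3
  show mfderiv (𝓡 n) 𝓘(ℝ, ℝ) h y = 0
  rw [h3]
  exact ContinuousLinearMap.zero_comp _

theorem rmul_surj {A : Matrix (Fin k) (Fin k) ℤ} (hdet : A.det ≠ 0) (y : Fin k → ℝ) :
    ∃ x, rmul A x = y := by
  have h1 : (A.map (Int.cast : ℤ → ℝ)).det ≠ 0 := by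
    have := RingHom.map_det (Int.castRingHom ℝ) A
    simp only [RingHom.mapMatrix_apply, Int.coe_castRingHom] at this
    rw [← this]
    exact_mod_cast hdet
  have h2 : IsUnit (A.map (Int.cast : ℤ → ℝ)) :=
    (Matrix.isUnit_iff_isUnit_det _).2 (isUnit_iff_ne_zero.2 h1)
  exact Matrix.mulVec_surjective_iff_isUnit.2 h2 y

include ha in
theorem symm_iter {r : ℕ∞} {F : DiffM n N r} {A : Matrix (Fin k) (Fin k) ℤ}
    (hF : ∀ t x, F (a t x) = a (rmul A t) (F x)) (hdet : A.det ≠ 0) (θ : Fin k → ℝ) (x : N)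
    (m : ℕ) : ∃ t, (rotD ha F θ).symm^[m] x = a t (F.symm^[m] x) := by
  induction m with
  | zero => exact ⟨0, (ha.zero x).symm⟩
  | succ m ih =>
    obtain ⟨t, ht⟩ := ih
    obtain ⟨s, hs⟩ := rmul_surj hdet (-θ + t)
    refine ⟨s, ?_⟩
    rw [Function.iterate_succ_apply', ht, Function.iterate_succ_apply']
    apply (rotD ha F θ).injective
    change rotD ha F θ ((rotD ha F θ).symm _) = rotD ha F θ _
    rw [(rotD ha F θ).apply_symm_apply, rotD_apply, hF, hs, F.apply_symm_apply, ← ha.add]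
    congr 1
    abel

include ha hh hi in
theorem critInv_rot {r : ℕ∞} {F : DiffM n N r} {A : Matrix (Fin k) (Fin k) ℤ}
    (hF : ∀ t x, F (a t x) = a (rmul A t) (F x)) (hdet : A.det ≠ 0) (θ : Fin k → ℝ) :
    CritInv n (rotD ha F θ) h ⊆ CritInv n F h := by
  intro x hx m
  obtain ⟨h1, h2⟩ := hx m
  constructor
  · rw [rotD_coe, iter_rot ha.isAct hF] at h1
    exact crit_of_act ha hh hi h1
  · obtain ⟨t, ht⟩ := symm_iter ha hF hdet θ x m
    rw [ht] at h2
    exact crit_of_act ha hh hi h2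

end crit

section main

variable [T2Space N] [CompactSpace N] [IsManifold (𝓡 n) ∞ N] {r : ℕ∞} (hr : 1 ≤ r)
  (F : DiffM n N r) {A : Matrix (Fin k) (Fin k) ℤ} (hF : ∀ t x, F (a t x) = a (rmul A t) (F x))
  (hdet : A.det ≠ 0) (hA : ∀ m, 1 ≤ m → (psum A m).det ≠ 0)

include ha hr hF hdet hA in
theorem near_of_mod [MeasurableSpace N] (μ : Measure N) (hfin : FiniteAttractorsMod μ a F) :
    (∀ᵐ θ : Fin k → ℝ, FiniteAttractors μ (fun x => a θ (F x))) ∧
    (∀ᶠ θ in residual (Fin k → ℝ), FiniteAttractors μ (fun x => a θ (F x))) ∧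
    ∀ U : Set (DiffM n N r), IsOpen[strongTop n N r] U → F ∈ U →
      ∃ G ∈ U, (∃ θ, ∀ x, G x = a θ (F x)) ∧ FiniteAttractors μ G := by
  haveI := secondCountable n N
  have h0 := generic_attractors μ ha.isAct hF hdet hA F.continuous hfin
  refine ⟨h0.2, h0.1, fun U hU hFU => ?_⟩
  obtain ⟨κ, hκ, hκU⟩ := rot_mem ha hr F U hU hFU
  obtain ⟨θ, hθ, h1⟩ := residual_small h0.1 hκ
  exact ⟨rotD ha F θ, hκU θ hθ, ⟨θ, fun _ => rfl⟩, h1⟩

include ha hr hF hdet hA in
theorem near_of_monotone {h : N → ℝ} (hh : ContMDiff (𝓡 n) 𝓘(ℝ, ℝ) ∞ h)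
    (hi : ∀ t x, h (a t x) = h x) (hm : ∀ x, h x ≤ h (F x)) {m : ℕ} (M : Fin m → Set N)
    (hcl : ∀ i, IsClosed (M i)) (hinv : ∀ i, F '' M i = M i) (hMa : ∀ i, Inv a (M i))
    (hdis : ∀ i j, i ≠ j → Disjoint (M i) (M j)) (hC : ∀ i, ∀ x ∈ M i, IsCrit n h x)
    (htr : ∀ i, TransMod a F (M i)) (hcov : CritInv n F h ⊆ ⋃ i, M i)
    (U : Set (DiffM n N r)) (hU : IsOpen[strongTop n N r] U) (hFU : F ∈ U) :
    ∃ G ∈ U, (∀ p, ∃ i, omegaLim G p ⊆ M i) ∧
      ∀ (_ : MeasurableSpace N) (μ : Measure N), FiniteAttractors μ G := by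
  haveI := secondCountable n N
  obtain ⟨κ, hκ, hκU⟩ := rot_mem ha hr F U hU hFU
  have h3 : ∀ᶠ θ in residual (Fin k → ℝ), ∀ i : Fin m, ∃ x ∈ M i,
      M i ⊆ closure (range fun j : ℕ => (rot a F θ)^[j] x) :=
    eventually_countable_forall.2 fun i => (trans_generic ha.isAct hF hdet hA (hcl i)
      (hMa i) (hinv i) F.continuous (htr i)).1
  obtain ⟨θ, hθ, h1⟩ := residual_small h3 hκ
  refine finitude hr (rotD ha F θ) hh (fun x => ?_) M hcl (fun i => ?_) hdis hC (fun i => h1 i)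
    ((critInv_rot ha hh hi hF hdet θ).trans hcov) U hU (hκU θ hθ)
  · rw [rotD_apply, hi]
    exact hm x
  · rw [rotD_coe]
    exact rot_image ha.isAct (hMa i) (hinv i) θ

end main

/-- `F` normalises the torus action `a`: it carries `a t` to `a (A t)`, where `A` is an integral
matrix with `det A ≠ 0` such that all matrices `1 + A + ⋯ + A ^ (m - 1)` are nonsingular, that is, no
eigenvalue of `A` other than `1` is a root of unity. For `A = 1` this says that `F` commutes with the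
action. -/
structure Normalises {k : ℕ} {N : Type u} (a : (Fin k → ℝ) → N → N)
    (A : Matrix (Fin k) (Fin k) ℤ) (F : N → N) : Prop where
  det : A.det ≠ 0
  root : ∀ m : ℕ, 1 ≤ m → (∑ j ∈ Finset.range m, A ^ j).det ≠ 0
  comm : ∀ t x, F (a t x) = a ((A.map (Int.cast : ℤ → ℝ)).mulVec t) (F x)

/-- Every neighbourhood of `F` in the `C^r` topology contains diffeomorphisms with the property
`P`. -/
def Near {n : ℕ} {N : Type u} [TopologicalSpace N] [ChartedSpace (V n) N] {r : ℕ∞}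
    (F : DiffM n N r) (P : DiffM n N r → Prop) : Prop :=
  ∀ U : Set (DiffM n N r), IsOpen[strongTop n N r] U → F ∈ U → ∃ G ∈ U, P G

/-- `h` is a smooth function which is invariant under the action `a` and does not decrease along the
orbits of `F`, and the points whose whole `F`-orbit consists of critical points of `h` are contained
in the finitely many pairwise disjoint sets `M i`, which are closed, invariant under `F` and under
the action, consist of critical points of `h` and are transitive modulo the action. -/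
structure IsMonotone (n : ℕ) {k : ℕ} {N : Type u} [TopologicalSpace N] [ChartedSpace (V n) N]
    {r : ℕ∞} (a : (Fin k → ℝ) → N → N) (F : DiffM n N r) (h : N → ℝ) {m : ℕ}
    (M : Fin m → Set N) : Prop where
  smooth : ContMDiff (𝓡 n) 𝓘(ℝ, ℝ) ∞ h
  inv : ∀ t x, h (a t x) = h x
  mono : ∀ x, h x ≤ h (F x)
  closed : ∀ i, IsClosed (M i)
  image : ∀ i, F '' M i = M i
  act : ∀ i, Inv a (M i)
  disj : ∀ i j, i ≠ j → Disjoint (M i) (M j)
  crit : ∀ i, ∀ x ∈ M i, IsCrit n h x
  trans : ∀ i, TransMod a F (M i)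
  cover : CritInv n F h ⊆ ⋃ i, M i

end Pool.Agent.W5h32.PT
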