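import Mathlib

/-!
# Images of small boxes under the partial sums of the powers of an integral matrix

If `A` is an integral matrix with `det A ≠ 0` such that no `1 + A + ... + A ^ (m - 1)`, `m ≥ 1`, is
singular, then for every `ε > 0` and all large `n` every vector is the sum of an integral vector, a
vector of norm at most `ε` and the image under `1 + A + ... + A ^ (n - 1)` of a vector of norm at
most `ε`.
-/

set_option autoImplicit false

open MeasureTheory Set Complex Matrix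
open scoped Pointwise

namespace Pool.Agent.W5h32.PT

noncomputable section

variable {k : ℕ}

/-- the sum `1 + A + ... + A ^ (n - 1)` -/
def psum (A : Matrix (Fin k) (Fin k) ℤ) (n : ℕ) : Matrix (Fin k) (Fin k) ℤ :=
  ∑ j ∈ Finset.range n, A ^ j

/-- the action of an integral matrix on real vectors -/
def rmul (M : Matrix (Fin k) (Fin k) ℤ) (x : Fin k → ℝ) : Fin k → ℝ :=
  (M.map (Int.cast : ℤ → ℝ)).mulVec x

theorem psum_succ (A : Matrix (Fin k) (Fin k) ℤ) (n : ℕ) : psum A (n + 1) = 1 + A * psum A n := by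
  unfold psum
  rw [Finset.sum_range_succ', Finset.mul_sum, add_comm, pow_zero]
  congr 1
  exact Finset.sum_congr rfl fun j _ => pow_succ' A j

theorem psum_add (A : Matrix (Fin k) (Fin k) ℤ) (n p : ℕ) :
    psum A (n + p) = psum A n + A ^ n * psum A p := by
  unfold psum
  rw [Finset.sum_range_add, Finset.mul_sum]
  congr 1
  exact Finset.sum_congr rfl fun j _ => pow_add A n j

/-- the vectors `(1 + A + ... + A ^ (n - 1))ᵀ v` are different -/
theorem psum_inj (A : Matrix (Fin k) (Fin k) ℤ) (hdet : A.det ≠ 0)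
    (hA : ∀ m, 1 ≤ m → (psum A m).det ≠ 0) (v : Fin k → ℤ) (hv : v ≠ 0) :
    Function.Injective fun n => (psum A n)ᵀ.mulVec v := by
  have key : ∀ n p : ℕ, 1 ≤ p → (psum A n)ᵀ.mulVec v ≠ (psum A (n + p))ᵀ.mulVec v := by
    intro n p hp he
    rw [psum_add, Matrix.transpose_add, Matrix.add_mulVec] at he
    have h1 : (A ^ n * psum A p)ᵀ.mulVec v = 0 := by
      have := congrArg (fun z => z - (psum A n)ᵀ.mulVec v) he
      simpa using this.symm
    have h2 : ((A ^ n * psum A p)ᵀ).det ≠ 0 := by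
      rw [Matrix.det_transpose, Matrix.det_mul, Matrix.det_pow]
      exact mul_ne_zero (pow_ne_zero _ hdet) (hA p hp)
    exact hv (Matrix.eq_zero_of_mulVec_eq_zero h2 h1)
  intro n m he
  rcases lt_trichotomy n m with h | h | h
  · obtain ⟨p, rfl⟩ := Nat.exists_eq_add_of_lt h
    exact absurd he (key n (p + 1) (by omega))
  · exact h
  · obtain ⟨p, rfl⟩ := Nat.exists_eq_add_of_lt h
    exact absurd he.symm (key m (p + 1) (by omega))

/-- the vectors `(1 + A + ... + A ^ (n - 1))ᵀ v` tend to infinity -/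
theorem psum_large (A : Matrix (Fin k) (Fin k) ℤ) (hdet : A.det ≠ 0)
    (hA : ∀ m, 1 ≤ m → (psum A m).det ≠ 0) (v : Fin k → ℤ) (hv : v ≠ 0) (R : ℝ) :
    ∀ᶠ n in Filter.atTop, ∃ j, R < |(((psum A n)ᵀ.mulVec v j : ℤ) : ℝ)| := by
  have hfin : {n : ℕ | ∀ j, |(((psum A n)ᵀ.mulVec v j : ℤ) : ℝ)| ≤ R}.Finite := by
    have h1 : (Set.Icc (fun _ : Fin k => -⌈R⌉) (fun _ => ⌈R⌉)).Finite := Set.finite_Icc _ _
    refine Set.Finite.of_finite_image (f := fun n => (psum A n)ᵀ.mulVec v)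
      (h1.subset ?_) (psum_inj A hdet hA v hv).injOn
    rintro _ ⟨n, hn, rfl⟩
    constructor
    · intro j
      have h2 := (abs_le.1 (hn j)).1
      have h3 : ((-⌈R⌉ : ℤ) : ℝ) ≤ (((psum A n)ᵀ.mulVec v j : ℤ) : ℝ) := by
        push_cast
        linarith [Int.le_ceil R]
      exact_mod_cast h3
    · intro j
      have h2 := (abs_le.1 (hn j)).2
      have h3 : (((psum A n)ᵀ.mulVec v j : ℤ) : ℝ) ≤ (⌈R⌉ : ℤ) := h2.trans (Int.le_ceil R)
      exact_mod_cast h3
  have h2 := hfin.compl_mem_cofinite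
  rw [Nat.cofinite_eq_atTop] at h2
  filter_upwards [h2] with n hn
  simp only [mem_compl_iff, mem_setOf_eq, not_forall, not_le] at hn
  exact hn

/-- the uniform measure on the unit cube -/
def mu (k : ℕ) : Measure (Fin k → ℝ) := Measure.pi fun _ => volume.restrict (Ioc (0 : ℝ) 1)

instance : IsProbabilityMeasure (volume.restrict (Ioc (0 : ℝ) 1)) := ⟨by simp⟩

instance (k : ℕ) : IsProbabilityMeasure (mu k) := by
  unfold mu
  infer_instance

/-- one factor -/
theorem factor_le (a : ℝ) : ‖∫ s in Ioc (0 : ℝ) 1, cexp (-(2 * Real.pi * I * a * s))‖ ≤ 1 := by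
  refine (norm_integral_le_of_norm_le_const (C := 1) ?_).trans (by simp)
  refine Filter.Eventually.of_forall fun s => ?_
  have : -(2 * Real.pi * I * a * s) = ((-(2 * Real.pi * a * s) : ℝ) : ℂ) * I := by
    push_cast
    ring
  rw [this, Complex.norm_exp_ofReal_mul_I]

theorem factor_small (a : ℝ) (ha : a ≠ 0) :
    ‖∫ s in Ioc (0 : ℝ) 1, cexp (-(2 * Real.pi * I * a * s))‖ ≤ 1 / |a| := by
  rw [← intervalIntegral.integral_of_le zero_le_one]
  have hc : (-(2 * Real.pi * I * a) : ℂ) ≠ 0 := by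
    simp [Real.pi_ne_zero, ha]
  have h1 : ∫ s in (0 : ℝ)..1, cexp (-(2 * Real.pi * I * a * s)) =
      (cexp ((-(2 * Real.pi * I * a)) * (1 : ℝ)) - cexp ((-(2 * Real.pi * I * a)) * (0 : ℝ))) /
        (-(2 * Real.pi * I * a)) := by
    rw [← integral_exp_mul_complex hc]
    congr 1
    funext s
    congr 1
    ring
  rw [h1, norm_div]
  have h2 : ‖(-(2 * Real.pi * I * a) : ℂ)‖ = 2 * Real.pi * |a| := by
    rw [norm_neg, norm_mul, norm_mul, norm_mul, Complex.norm_I, Complex.norm_real, Complex.norm_real]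
    simp [abs_of_pos Real.pi_pos]
  have h3 : ‖cexp ((-(2 * Real.pi * I * a)) * (1 : ℝ)) - cexp ((-(2 * Real.pi * I * a)) * (0 : ℝ))‖
      ≤ 2 := by
    refine (norm_sub_le _ _).trans ?_
    have e1 : (-(2 * Real.pi * I * a) : ℂ) * (1 : ℝ) = ((-(2 * Real.pi * a) : ℝ) : ℂ) * I := by
      push_cast
      ring
    rw [e1, Complex.norm_exp_ofReal_mul_I]
    simp
    norm_num
  have h4 : 0 < |a| := abs_pos.2 ha
  have h5 : (1 : ℝ) < Real.pi := by linarith [Real.pi_gt_three]
  rw [h2, div_le_div_iff₀ (by positivity) h4]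
  nlinarith

/-- the mean of a character -/
theorem avg_char (M : Matrix (Fin k) (Fin k) ℝ) (y : Fin k → ℝ) (v : Fin k → ℤ) :
    ∫ t, UnitAddTorus.mFourier v (fun i => ((y i - (M.mulVec t) i : ℝ) : UnitAddCircle)) ∂(mu k) =
      cexp (2 * Real.pi * I * ∑ i, (v i : ℂ) * y i) *
        ∏ j, ∫ s in Ioc (0 : ℝ) 1,
          cexp (-(2 * Real.pi * I * ((Mᵀ.mulVec (fun i => (v i : ℝ)) j : ℝ) : ℂ) * s)) := by
  unfold mu
  rw [← integral_fintype_prod_eq_prod (μ := fun _ => volume.restrict (Ioc (0 : ℝ) 1))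
    (f := fun (j : Fin k) (s : ℝ) =>
      cexp (-(2 * Real.pi * I * ((Mᵀ.mulVec (fun i => (v i : ℝ)) j : ℝ) : ℂ) * s))),
    ← integral_const_mul]
  congr 1
  funext t
  have h1 : UnitAddTorus.mFourier v (fun i => ((y i - (M.mulVec t) i : ℝ) : UnitAddCircle)) =
      ∏ i, cexp (2 * Real.pi * I * (v i) * ((y i - (M.mulVec t) i : ℝ) : ℂ)) := by
    show ∏ i, fourier (v i) ((y i - (M.mulVec t) i : ℝ) : UnitAddCircle) = _
    refine Finset.prod_congr rfl fun i _ => ?_
    rw [fourier_coe_apply]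
    congr 1
    push_cast
    ring
  rw [h1, ← Complex.exp_sum, ← Complex.exp_sum, ← Complex.exp_add]
  congr 1
  have h2 : ∑ j, (-(2 * Real.pi * I * ((Mᵀ.mulVec (fun i => (v i : ℝ)) j : ℝ) : ℂ) * t j)) =
      -(2 * Real.pi * I) * ∑ i, (v i : ℂ) * ((M.mulVec t i : ℝ) : ℂ) := by
    have e1 : ∀ j, ((Mᵀ.mulVec (fun i => (v i : ℝ)) j : ℝ) : ℂ) = ∑ i, (M i j : ℂ) * (v i : ℂ) := by
      intro j
      simp [Matrix.mulVec, dotProduct]
    have e2 : ∀ i, ((M.mulVec t i : ℝ) : ℂ) = ∑ j, (M i j : ℂ) * (t j : ℂ) := by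
      intro i
      simp [Matrix.mulVec, dotProduct]
    simp only [e1, e2, Finset.mul_sum, Finset.sum_mul, ← Finset.sum_neg_distrib]
    rw [Finset.sum_comm]
    refine Finset.sum_congr rfl fun i _ => Finset.sum_congr rfl fun j _ => ?_
    ring
  rw [h2, Finset.mul_sum, Finset.mul_sum, ← Finset.sum_add_distrib]
  refine Finset.sum_congr rfl fun i _ => ?_
  push_cast
  ring

/-- the product of hat functions -/
def bump (k : ℕ) (ε : ℝ) : C(UnitAddTorus (Fin k), ℂ) :=
  ⟨fun x => ∏ i, ((max 0 (1 - ‖x i‖ / ε) : ℝ) : ℂ), by fun_prop⟩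

/-- the mean over the image of a box -/
def avg (M : Matrix (Fin k) (Fin k) ℝ) (y : Fin k → ℝ) (g : C(UnitAddTorus (Fin k), ℂ)) : ℂ :=
  ∫ t, g (fun i => ((y i - (M.mulVec t) i : ℝ) : UnitAddCircle)) ∂(mu k)

theorem avg_cont (M : Matrix (Fin k) (Fin k) ℝ) (y : Fin k → ℝ) (g : C(UnitAddTorus (Fin k), ℂ)) :
    Continuous fun t : Fin k → ℝ => g (fun i => ((y i - (M.mulVec t) i : ℝ) : UnitAddCircle)) := by
  refine g.continuous.comp (continuous_pi fun i => ?_)
  refine (AddCircle.continuous_mk' 1).comp ?_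
  have h1 : Continuous fun t : Fin k → ℝ => M.mulVec t :=
    Continuous.matrix_mulVec continuous_const continuous_id
  exact continuous_const.sub ((continuous_apply i).comp h1)

theorem avg_int (M : Matrix (Fin k) (Fin k) ℝ) (y : Fin k → ℝ) (g : C(UnitAddTorus (Fin k), ℂ)) :
    Integrable (fun t : Fin k → ℝ => g (fun i => ((y i - (M.mulVec t) i : ℝ) : UnitAddCircle)))
      (mu k) := by
  refine Integrable.of_bound (C := ‖g‖) (avg_cont M y g).aestronglyMeasurable ?_
  exact Filter.Eventually.of_forall fun t => g.norm_coe_le_norm _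

theorem avg_le (M : Matrix (Fin k) (Fin k) ℝ) (y : Fin k → ℝ) (g : C(UnitAddTorus (Fin k), ℂ)) :
    ‖avg M y g‖ ≤ ‖g‖ := by
  unfold avg
  refine (norm_integral_le_of_norm_le_const (C := ‖g‖)
    (Filter.Eventually.of_forall fun t => g.norm_coe_le_norm _)).trans ?_
  simp

theorem avg_sub (M : Matrix (Fin k) (Fin k) ℝ) (y : Fin k → ℝ) (g h : C(UnitAddTorus (Fin k), ℂ)) :
    avg M y (g - h) = avg M y g - avg M y h := by
  unfold avg
  rw [← integral_sub (avg_int M y g) (avg_int M y h)]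
  rfl

theorem avg_sum (M : Matrix (Fin k) (Fin k) ℝ) (y : Fin k → ℝ) (c : (Fin k → ℤ) →₀ ℂ) :
    avg M y (c.sum fun v a => a • UnitAddTorus.mFourier v) =
      c.sum fun v a => a * avg M y (UnitAddTorus.mFourier v) := by
  unfold avg Finsupp.sum
  simp only [ContinuousMap.coe_sum, ContinuousMap.coe_smul, Finset.sum_apply, Pi.smul_apply,
    smul_eq_mul]
  rw [integral_finsetSum _ fun v _ => (avg_int M y (UnitAddTorus.mFourier v)).const_mul (c v)]
  exact Finset.sum_congr rfl fun v _ => integral_const_mul _ _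

theorem avg_char_zero (M : Matrix (Fin k) (Fin k) ℝ) (y : Fin k → ℝ) :
    avg M y (UnitAddTorus.mFourier 0) = 1 := by
  unfold avg
  rw [UnitAddTorus.mFourier_zero]
  simp

theorem avg_char_le (M : Matrix (Fin k) (Fin k) ℝ) (y : Fin k → ℝ) (v : Fin k → ℤ) (j : Fin k)
    (hj : Mᵀ.mulVec (fun i => (v i : ℝ)) j ≠ 0) :
    ‖avg M y (UnitAddTorus.mFourier v)‖ ≤ 1 / |Mᵀ.mulVec (fun i => (v i : ℝ)) j| := by
  unfold avg
  rw [avg_char, norm_mul, norm_prod]
  have h1 : ‖cexp (2 * Real.pi * I * ∑ i, (v i : ℂ) * y i)‖ = 1 := by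
    have : (2 * Real.pi * I * ∑ i, (v i : ℂ) * y i : ℂ) =
        ((2 * Real.pi * ∑ i, (v i : ℝ) * y i : ℝ) : ℂ) * I := by
      push_cast
      ring
    rw [this, Complex.norm_exp_ofReal_mul_I]
  rw [h1, one_mul]
  calc _ ≤ ∏ j' : Fin k, (if j' = j then 1 / |Mᵀ.mulVec (fun i => (v i : ℝ)) j| else 1) := by
        refine Finset.prod_le_prod (fun _ _ => norm_nonneg _) fun j' _ => ?_
        split_ifs with h
        · subst h
          exact factor_small _ hj
        · exact factor_le _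
    _ = _ := by rw [Finset.prod_ite_eq' Finset.univ j]; simp

theorem avg_one_char (v : Fin k → ℤ) (hv : v ≠ 0) :
    avg (1 : Matrix (Fin k) (Fin k) ℝ) 0 (UnitAddTorus.mFourier v) = 0 := by
  obtain ⟨j, hj⟩ := Function.ne_iff.1 hv
  unfold avg
  rw [avg_char]
  refine mul_eq_zero_of_right _ (Finset.prod_eq_zero (Finset.mem_univ j) ?_)
  rw [Matrix.transpose_one, Matrix.one_mulVec, ← intervalIntegral.integral_of_le zero_le_one]
  have hj' : (v j : ℂ) ≠ 0 := by exact_mod_cast hj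
  have hc : (-(2 * Real.pi * I * (v j)) : ℂ) ≠ 0 := by
    simp [Real.pi_ne_zero, hj']
  have h1 : ∫ s in (0 : ℝ)..1, cexp (-(2 * Real.pi * I * ((v j : ℝ) : ℂ) * s)) =
      (cexp ((-(2 * Real.pi * I * (v j))) * (1 : ℝ)) - cexp ((-(2 * Real.pi * I * (v j))) * (0 : ℝ)))
        / (-(2 * Real.pi * I * (v j))) := by
    rw [← integral_exp_mul_complex hc]
    congr 1
    funext s
    congr 1
    push_cast
    ring
  rw [h1]
  have h2 : cexp ((-(2 * Real.pi * I * (v j))) * (1 : ℝ)) = 1 := by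
    rw [Complex.exp_eq_one_iff]
    exact ⟨-v j, by push_cast; ring⟩
  rw [h2]
  simp

theorem avg_bump (ε : ℝ) (hε : 0 < ε) :
    0 < ‖avg (1 : Matrix (Fin k) (Fin k) ℝ) 0 (bump k ε)‖ := by
  have h1 : avg (1 : Matrix (Fin k) (Fin k) ℝ) 0 (bump k ε) =
      ∏ _i : Fin k, ∫ s in Ioc (0 : ℝ) 1,
        ((max 0 (1 - ‖((-s : ℝ) : UnitAddCircle)‖ / ε) : ℝ) : ℂ) := by
    unfold avg mu
    rw [← integral_fintype_prod_eq_prod (μ := fun _ => volume.restrict (Ioc (0 : ℝ) 1))
      (f := fun (_ : Fin k) (s : ℝ) => ((max 0 (1 - ‖((-s : ℝ) : UnitAddCircle)‖ / ε) : ℝ) : ℂ))]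
    congr 1
    funext t
    show ∏ i : Fin k, ((max 0 (1 - ‖(((0 : Fin k → ℝ) i -
      ((1 : Matrix (Fin k) (Fin k) ℝ).mulVec t) i : ℝ) : UnitAddCircle)‖ / ε) : ℝ) : ℂ) =
      ∏ i : Fin k, ((max 0 (1 - ‖((-(t i) : ℝ) : UnitAddCircle)‖ / ε) : ℝ) : ℂ)
    refine Finset.prod_congr rfl fun i _ => ?_
    rw [Matrix.one_mulVec]
    simp
  have h2 : 0 < ∫ s in (0 : ℝ)..1, max 0 (1 - ‖((-s : ℝ) : UnitAddCircle)‖ / ε) := by
    refine intervalIntegral.integral_pos zero_lt_one ?_ (fun _ _ => le_max_left _ _)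
      ⟨0, by simp, by simp⟩
    have : Continuous fun s : ℝ => ((-s : ℝ) : UnitAddCircle) :=
      (AddCircle.continuous_mk' 1).comp continuous_neg
    fun_prop
  rw [h1, norm_prod]
  refine Finset.prod_pos fun i _ => ?_
  rw [integral_complex_ofReal, Complex.norm_real, ← intervalIntegral.integral_of_le zero_le_one]
  exact norm_pos_iff.2 h2.ne'

theorem rmul_eq (M : Matrix (Fin k) (Fin k) ℤ) (ε : ℝ) (t : Fin k → ℝ) :
    (ε • M.map (Int.cast : ℤ → ℝ)).mulVec t = rmul M (ε • t) := by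
  unfold rmul
  rw [Matrix.smul_mulVec, Matrix.mulVec_smul]

/-- The mean of the bump over the image of a small cube is bounded from below. -/
theorem cover_avg (A : Matrix (Fin k) (Fin k) ℤ) (hdet : A.det ≠ 0)
    (hA : ∀ m, 1 ≤ m → (psum A m).det ≠ 0) (ε : ℝ) (hε : 0 < ε) :
    ∃ c : ℝ, 0 < c ∧ ∀ κ : ℝ, 0 < κ → ∀ᶠ n in Filter.atTop, ∀ y : Fin k → ℝ,
      c ≤ ‖avg (κ • (psum A n).map (Int.cast : ℤ → ℝ)) y (bump k ε)‖ := by
  set c := ‖avg (1 : Matrix (Fin k) (Fin k) ℝ) 0 (bump k ε)‖ with hc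
  have hc0 : 0 < c := avg_bump ε hε
  refine ⟨c / 4, by positivity, fun κ hκ => ?_⟩
  have h1 : bump k ε ∈ (Submodule.span ℂ (range (UnitAddTorus.mFourier (d := Fin k)))).topologicalClosure := by
    rw [UnitAddTorus.span_mFourier_closure_eq_top]
    trivial
  have h2 : bump k ε ∈ closure (Submodule.span ℂ (range (UnitAddTorus.mFourier (d := Fin k))) :
    Set C(UnitAddTorus (Fin k), ℂ)) := h1
  obtain ⟨P, hP, hPd⟩ := Metric.mem_closure_iff.1 h2 (c / 4) (by positivity)
  rw [dist_eq_norm] at hPd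
  obtain ⟨a, rfl⟩ := (Finsupp.mem_span_range_iff_exists_finsupp).1 hP
  -- the coefficient at zero
  have h3 : avg (1 : Matrix (Fin k) (Fin k) ℝ) 0 (a.sum fun v b => b • UnitAddTorus.mFourier v) =
      a 0 := by
    rw [avg_sum, Finsupp.sum, Finset.sum_eq_single 0]
    · rw [avg_char_zero, mul_one]
    · intro v _ hv
      rw [avg_one_char v hv, mul_zero]
    · intro h
      rw [Finsupp.notMem_support_iff.1 h, zero_mul]
  have h4 : 3 * c / 4 ≤ ‖a 0‖ := by
    have := avg_le (1 : Matrix (Fin k) (Fin k) ℝ) 0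
      (bump k ε - (a.sum fun v b => b • UnitAddTorus.mFourier v))
    rw [avg_sub, h3] at this
    have h5 := norm_sub_norm_le (avg (1 : Matrix (Fin k) (Fin k) ℝ) 0 (bump k ε)) (a 0)
    linarith
  -- large n
  have h5 : ∀ᶠ n in Filter.atTop, ∀ v ∈ a.support, v ≠ 0 → ∀ y : Fin k → ℝ,
      ‖avg (κ • (psum A n).map (Int.cast : ℤ → ℝ)) y (UnitAddTorus.mFourier v)‖ ≤
        c / 4 / (1 + ∑ v ∈ a.support, ‖a v‖) := by
    rw [Filter.eventually_all_finset]
    intro v _
    by_cases hv : v = 0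
    · exact Filter.Eventually.of_forall fun n h => absurd hv h
    set D := 1 + ∑ v ∈ a.support, ‖a v‖ with hD
    have hD0 : 0 < D := by positivity
    filter_upwards [psum_large A hdet hA v hv (4 * D / (c * κ))] with n hn _ y
    obtain ⟨j, hj⟩ := hn
    have e : (κ • (psum A n).map (Int.cast : ℤ → ℝ))ᵀ.mulVec (fun i => (v i : ℝ)) j =
        κ * (((psum A n)ᵀ.mulVec v j : ℤ) : ℝ) := by
      simp [Matrix.mulVec, dotProduct, Finset.mul_sum, mul_assoc]
    have h6 : 0 < 4 * D / (c * κ) := by positivity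
    have h7 : 0 < |(((psum A n)ᵀ.mulVec v j : ℤ) : ℝ)| := h6.trans hj
    have h8 := avg_char_le (κ • (psum A n).map (Int.cast : ℤ → ℝ)) y v j (by
      rw [e]
      exact mul_ne_zero hκ.ne' (abs_pos.1 h7))
    refine h8.trans ?_
    rw [e, abs_mul, abs_of_pos hκ, div_le_div_iff₀ (by positivity) hD0]
    rw [div_lt_iff₀ (by positivity)] at hj
    nlinarith
  filter_upwards [h5] with n hn y
  have h7 : ‖avg (κ • (psum A n).map (Int.cast : ℤ → ℝ)) y (bump k ε) -
      avg (κ • (psum A n).map (Int.cast : ℤ → ℝ)) y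
      (a.sum fun v b => b • UnitAddTorus.mFourier v)‖ ≤ c / 4 := by
    have := avg_le (κ • (psum A n).map (Int.cast : ℤ → ℝ)) y
      (bump k ε - (a.sum fun v b => b • UnitAddTorus.mFourier v))
    rw [avg_sub] at this
    exact this.trans hPd.le
  have h8 : ‖avg (κ • (psum A n).map (Int.cast : ℤ → ℝ)) y
      (a.sum fun v b => b • UnitAddTorus.mFourier v) - a 0‖ ≤ c / 4 := by
    rw [avg_sum, Finsupp.sum]
    have e1 : a 0 = ∑ v ∈ a.support, if v = 0 then a v else 0 := by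
      rw [Finset.sum_ite_eq']
      split_ifs with h
      · rfl
      · exact Finsupp.notMem_support_iff.1 h
    conv_lhs => rw [e1]
    rw [← Finset.sum_sub_distrib]
    have e2 : ∀ v ∈ a.support, ‖a v * avg (κ • (psum A n).map (Int.cast : ℤ → ℝ)) y
        (UnitAddTorus.mFourier v) - (if v = 0 then a v else 0)‖ ≤
        ‖a v‖ * (c / 4 / (1 + ∑ v ∈ a.support, ‖a v‖)) := by
      intro v hv
      by_cases h0 : v = 0
      · rw [if_pos h0, h0, avg_char_zero, mul_one, sub_self, norm_zero]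
        positivity
      · rw [if_neg h0, sub_zero, norm_mul]
        exact mul_le_mul_of_nonneg_left (hn v hv h0 y) (norm_nonneg _)
    refine (norm_sum_le _ _).trans ((Finset.sum_le_sum e2).trans ?_)
    rw [← Finset.sum_mul]
    have h9 : 0 ≤ ∑ v ∈ a.support, ‖a v‖ := by positivity
    rw [mul_div_assoc', div_le_iff₀ (by positivity)]
    nlinarith
  have h9 := norm_sub_norm_le (a 0) (avg (κ • (psum A n).map (Int.cast : ℤ → ℝ)) y
      (a.sum fun v b => b • UnitAddTorus.mFourier v))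
  rw [norm_sub_rev] at h9
  have h10 := norm_sub_norm_le (avg (κ • (psum A n).map (Int.cast : ℤ → ℝ)) y
      (a.sum fun v b => b • UnitAddTorus.mFourier v))
      (avg (κ • (psum A n).map (Int.cast : ℤ → ℝ)) y (bump k ε))
  rw [norm_sub_rev] at h10
  linarith

/-- the points of the unit cube whose image is near `y` modulo the integral vectors -/
def hit (M : Matrix (Fin k) (Fin k) ℤ) (κ ε : ℝ) (y : Fin k → ℝ) : Set (Fin k → ℝ) :=
  {t | ∃ z : Fin k → ℤ, ∀ i, |y i - rmul M (κ • t) i - z i| < ε}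

theorem hit_open (M : Matrix (Fin k) (Fin k) ℤ) (κ ε : ℝ) (y : Fin k → ℝ) :
    IsOpen (hit M κ ε y) := by
  have e : hit M κ ε y = ⋃ z : Fin k → ℤ, ⋂ i, {t | |y i - rmul M (κ • t) i - z i| < ε} := by
    ext t
    simp [hit]
  rw [e]
  refine isOpen_iUnion fun z => isOpen_iInter_of_finite fun i => isOpen_lt ?_ continuous_const
  have h1 : Continuous fun t : Fin k → ℝ => rmul M (κ • t) :=
    (Continuous.matrix_mulVec continuous_const continuous_id).comp (continuous_const_smul κ)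
  exact ((continuous_const.sub ((continuous_apply i).comp h1)).sub continuous_const).abs

/-- **The covering property.** -/
theorem cover_meas (A : Matrix (Fin k) (Fin k) ℤ) (hdet : A.det ≠ 0)
    (hA : ∀ m, 1 ≤ m → (psum A m).det ≠ 0) (ε : ℝ) (hε : 0 < ε) :
    ∃ c : ℝ, 0 < c ∧ ∀ κ : ℝ, 0 < κ → ∀ᶠ n in Filter.atTop, ∀ y : Fin k → ℝ,
      ENNReal.ofReal c ≤ mu k (hit (psum A n) κ ε y) := by
  obtain ⟨c, hc, h⟩ := cover_avg A hdet hA ε hε
  refine ⟨c, hc, fun κ hκ => ?_⟩
  filter_upwards [h κ hκ] with n hn y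
  have h1 := hn y
  set S := hit (psum A n) κ ε y with hS
  have hSm : MeasurableSet S := (hit_open _ _ _ _).measurableSet
  have h2 : ‖avg (κ • (psum A n).map (Int.cast : ℤ → ℝ)) y (bump k ε)‖ ≤ (mu k).real S := by
    have h3 : (mu k).real S = ∫ t, S.indicator (fun _ => (1 : ℝ)) t ∂(mu k) := by
      rw [integral_indicator_const _ hSm, smul_eq_mul, mul_one]
    rw [h3]
    unfold avg
    refine norm_integral_le_of_norm_le ((integrable_const 1).indicator hSm)
      (Filter.Eventually.of_forall fun t => ?_)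
    show ‖∏ i : Fin k, ((max 0 (1 - ‖((y i - ((κ • (psum A n).map (Int.cast : ℤ → ℝ)).mulVec t) i :
        ℝ) : UnitAddCircle)‖ / ε) : ℝ) : ℂ)‖ ≤ _
    by_cases ht : t ∈ S
    · rw [indicator_of_mem ht, norm_prod]
      refine Finset.prod_le_one (fun _ _ => norm_nonneg _) fun i _ => ?_
      rw [Complex.norm_real, Real.norm_of_nonneg (le_max_left _ _)]
      refine max_le zero_le_one ?_
      have : 0 ≤ ‖((y i - ((κ • (psum A n).map (Int.cast : ℤ → ℝ)).mulVec t) i :
        ℝ) : UnitAddCircle)‖ / ε := by positivity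
      linarith
    · rw [indicator_of_notMem ht]
      apply le_of_eq
      rw [norm_eq_zero]
      by_contra hne
      apply ht
      have hne' : ∀ i, ‖((y i - ((κ • (psum A n).map (Int.cast : ℤ → ℝ)).mulVec t) i : ℝ) :
          UnitAddCircle)‖ < ε := by
        intro i
        by_contra hi
        apply hne
        refine Finset.prod_eq_zero (Finset.mem_univ i) ?_
        rw [not_lt] at hi
        rw [max_eq_left, Complex.ofReal_zero]
        rw [sub_nonpos, le_div_iff₀ hε, one_mul]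
        exact hi
      refine ⟨fun i => round (y i - ((κ • (psum A n).map (Int.cast : ℤ → ℝ)).mulVec t) i),
        fun i => ?_⟩
      have := hne' i
      rw [UnitAddCircle.norm_eq] at this
      rw [← rmul_eq]
      exact this
  have h4 : c ≤ (mu k).real S := h1.trans h2
  rw [Measure.real] at h4
  exact (ENNReal.ofReal_le_iff_le_toReal (measure_ne_top _ _)).2 h4

/-- The same with an arbitrary cube. -/
theorem cover_cube (A : Matrix (Fin k) (Fin k) ℤ) (hdet : A.det ≠ 0)
    (hA : ∀ m, 1 ≤ m → (psum A m).det ≠ 0) (ε : ℝ) (hε : 0 < ε) :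
    ∃ c : ℝ, 0 < c ∧ ∀ κ : ℝ, 0 < κ → ∀ᶠ n in Filter.atTop, ∀ y x : Fin k → ℝ,
      ENNReal.ofReal c * volume (Metric.closedBall x κ) ≤
        volume ({θ | ∃ z : Fin k → ℤ, ∀ i, |y i - rmul (psum A n) θ i - z i| < ε} ∩
          Metric.closedBall x κ) := by
  obtain ⟨c, hc, h⟩ := cover_meas A hdet hA ε hε
  refine ⟨c, hc, fun κ hκ => ?_⟩
  filter_upwards [h (2 * κ) (by positivity)] with n hn y x
  set x₀ : Fin k → ℝ := fun i => x i - κ with hx₀
  have h1 := hn (y - rmul (psum A n) x₀)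
  set S := hit (psum A n) (2 * κ) ε (y - rmul (psum A n) x₀) with hS
  have hSm : MeasurableSet S := (hit_open _ _ _ _).measurableSet
  have h2 : mu k S = volume (S ∩ univ.pi fun _ => Ioc (0 : ℝ) 1) := by
    unfold mu
    rw [← Measure.restrict_pi_pi, Measure.restrict_apply hSm]
    rfl
  rw [h2] at h1
  have h3 : (fun t : Fin k → ℝ => x₀ + (2 * κ) • t) '' (S ∩ univ.pi fun _ => Ioc (0 : ℝ) 1) ⊆
      {θ | ∃ z : Fin k → ℤ, ∀ i, |y i - rmul (psum A n) θ i - z i| < ε} ∩
          Metric.closedBall x κ := by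
    rintro _ ⟨t, ⟨⟨z, hz⟩, ht⟩, rfl⟩
    refine ⟨⟨z, fun i => ?_⟩, ?_⟩
    · have := hz i
      have e : rmul (psum A n) (x₀ + (2 * κ) • t) =
          rmul (psum A n) x₀ + rmul (psum A n) ((2 * κ) • t) := by
        unfold rmul
        rw [Matrix.mulVec_add]
      rw [e]
      rw [Pi.sub_apply] at this
      rw [Pi.add_apply]
      have e2 : y i - (rmul (psum A n) x₀ i + rmul (psum A n) ((2 * κ) • t) i) - z i =
        y i - rmul (psum A n) x₀ i - rmul (psum A n) ((2 * κ) • t) i - z i := by ring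
      rw [e2]
      exact this
    · rw [Metric.mem_closedBall, dist_pi_le_iff hκ.le]
      intro i
      have hti := ht i (mem_univ i)
      show dist (x i - κ + 2 * κ * t i) (x i) ≤ κ
      rw [Real.dist_eq, abs_le]
      constructor
      · nlinarith [hti.1]
      · nlinarith [hti.2]
  refine le_trans ?_ (measure_mono h3)
  have h4 : (fun t : Fin k → ℝ => x₀ + (2 * κ) • t) '' (S ∩ univ.pi fun _ => Ioc (0 : ℝ) 1) =
      (fun t => x₀ + t) '' ((2 * κ) • (S ∩ univ.pi fun _ => Ioc (0 : ℝ) 1)) := by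
    rw [← image_smul, image_image]
  rw [h4, Set.image_add_left, measure_preimage_add, Measure.addHaar_smul,
    Real.volume_pi_closedBall _ hκ.le, Module.finrank_fin_fun, Fintype.card_fin,
    abs_of_pos (by positivity), mul_comm]
  gcongr

end

end Pool.Agent.W5h32.PT
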