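import Pool.Agent.W5h32.PT.Top
import Pool.Agent.H728R2.FA.Defs

/-!
# Attractors of the rotated maps
-/

set_option autoImplicit false

open Set Filter Topology MeasureTheory

namespace Pool.Agent.W5h32.PT

open Pool.Agent.H728R2.FA (omegaLim IsAttractor FiniteAttractors)

variable {k : ℕ} {X : Type*} [TopologicalSpace X]

theorem mem_omega_iff (f : X → X) (p q : X) :
    q ∈ omegaLim f p ↔ MapClusterPt q atTop (fun n : ℕ => f^[n] p) := by
  rw [mapClusterPt_iff_frequently]
  simp only [omegaLim, mem_setOf_eq, Filter.frequently_atTop, ge_iff_le]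

/-- the fractional parts of the coordinates -/
noncomputable def frac (x : Fin k → ℝ) : Fin k → ℝ := fun i => Int.fract (x i)

theorem frac_mem (x : Fin k → ℝ) : frac x ∈ Icc (0 : Fin k → ℝ) 1 :=
  ⟨fun i => Int.fract_nonneg _, fun i => (Int.fract_lt_one _).le⟩

variable {a : (Fin k → ℝ) → X → X} (ha : IsAct a) {F : X → X}
  {A : Matrix (Fin k) (Fin k) ℤ} (hF : ∀ t x, F (a t x) = a (rmul A t) (F x))

include ha in
theorem act_frac (t : Fin k → ℝ) (x : X) : a (frac t) x = a t x := by
  have e : t = frac t + fun i => ((⌊t i⌋ : ℤ) : ℝ) := by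
    ext i
    simp [frac]
  conv_rhs => rw [e, ha.add, ha.int (fun i => ⌊t i⌋)]

include ha hF in
/-- The `ω`-limit sets of the rotated map are contained in the same invariant sets. -/
theorem omega_rot [CompactSpace X] [T2Space X] {Λ : Set X} (h : Inv a Λ) (θ : Fin k → ℝ) (p : X)
    (hp : omegaLim F p ⊆ Λ) : omegaLim (rot a F θ) p ⊆ Λ := by
  intro q hq
  rw [mem_omega_iff, mapClusterPt_iff_ultrafilter] at hq
  obtain ⟨U, hU, hUq⟩ := hq
  obtain ⟨τ, -, hτ⟩ := (isCompact_Icc (a := (0 : Fin k → ℝ)) (b := 1)).ultrafilter_le_nhds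
    (U.map fun n => frac (rmul (psum A n) θ))
    (by
      rw [Ultrafilter.coe_map, le_principal_iff]
      exact Filter.mem_map.2 (Filter.univ_mem' fun n => frac_mem _))
  obtain ⟨q', -, hq'⟩ := (isCompact_univ (X := X)).ultrafilter_le_nhds
    (U.map fun n => F^[n] p) (by simp)
  have h1 : q' ∈ omegaLim F p := by
    rw [mem_omega_iff, mapClusterPt_iff_ultrafilter]
    exact ⟨U, hU, hq'⟩
  have h2 : Tendsto (fun n => a (frac (rmul (psum A n) θ)) (F^[n] p)) U (𝓝 (a τ q')) :=
    (ha.cont.tendsto (τ, q')).comp (Filter.Tendsto.prodMk_nhds hτ hq')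
  have h3 : (fun n => a (frac (rmul (psum A n) θ)) (F^[n] p)) = fun n => (rot a F θ)^[n] p := by
    funext n
    rw [act_frac ha, iter_rot ha hF]
  rw [h3] at h2
  rw [tendsto_nhds_unique hUq h2]
  exact h _ _ (hp h1)

/-- `Λ` is an attractor of `F` modulo the action `a`: it is invariant under `F` and under the action,
it contains a point whose forward orbit is, modulo the action, dense in `Λ`, and its basin has
positive measure. In other words, the image of `Λ` in the orbit space is an attractor of the map of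
the orbit space induced by `F`. -/
def IsAttractorMod [MeasurableSpace X] (μ : Measure X) (a : (Fin k → ℝ) → X → X) (F : X → X)
    (Λ : Set X) : Prop :=
  F '' Λ = Λ ∧ Inv a Λ ∧ TransMod a F Λ ∧ 0 < μ {p | omegaLim F p ⊆ Λ}

/-- `F` has finitely many attractors modulo the action covering the space. -/
def FiniteAttractorsMod [MeasurableSpace X] (μ : Measure X) (a : (Fin k → ℝ) → X → X) (F : X → X) :
    Prop :=
  ∃ (m : ℕ) (Λ : Fin m → Set X), (∀ i, IsAttractorMod μ a F (Λ i)) ∧
    μ {p | ∀ i, ¬ omegaLim F p ⊆ Λ i} = 0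

theorem generic_attractors [CompactSpace X] [T2Space X] [SecondCountableTopology X]
    [MeasurableSpace X] (μ : Measure X) (ha : IsAct a)
    (hF : ∀ t x, F (a t x) = a (rmul A t) (F x))
    (hdet : A.det ≠ 0) (hA : ∀ m, 1 ≤ m → (psum A m).det ≠ 0) (hc : Continuous F)
    (hfin : FiniteAttractorsMod μ a F) :
    (∀ᶠ θ in residual (Fin k → ℝ), FiniteAttractors μ (rot a F θ)) ∧
      ∀ᵐ θ : Fin k → ℝ, FiniteAttractors μ (rot a F θ) := by
  obtain ⟨m, Λ, hΛ, hcov⟩ := hfin
  have h1 : ∀ i, F '' closure (Λ i) = closure (Λ i) := by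
    intro i
    rw [← hc.isClosedMap.closure_image_eq_of_continuous hc, (hΛ i).1]
  have h2 : ∀ i, TransMod a F (closure (Λ i)) := by
    intro i
    obtain ⟨x, hx, hxc⟩ := (hΛ i).2.2.1
    exact ⟨x, subset_closure hx, closure_minimal hxc isClosed_closure⟩
  have h3 := fun i => trans_generic ha hF hdet hA isClosed_closure
      (closure_inv ha (hΛ i).2.1) (h1 i) hc (h2 i)
  have key : ∀ θ : Fin k → ℝ, (∀ i : Fin m, ∃ x ∈ closure (Λ i),
      closure (Λ i) ⊆ closure (range fun j : ℕ => (rot a F θ)^[j] x)) →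
      FiniteAttractors μ (rot a F θ) := by
    intro θ hθ
    refine ⟨m, fun i => closure (Λ i), fun i => ⟨rot_image ha (closure_inv ha (hΛ i).2.1) (h1 i) θ,
      hθ i, (hΛ i).2.2.2.trans_le (measure_mono fun p hp => ?_)⟩, ?_⟩
    · exact omega_rot ha hF (closure_inv ha (hΛ i).2.1) θ p (hp.trans subset_closure)
    · refine measure_mono_null (t := {p | ∀ i, ¬ omegaLim F p ⊆ Λ i}) ?_ hcov
      intro p hp i hpi
      exact hp i (omega_rot ha hF (closure_inv ha (hΛ i).2.1) θ p (hpi.trans subset_closure))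
  constructor
  · filter_upwards [eventually_countable_forall.2 fun i => (h3 i).1] with θ hθ
    exact key θ hθ
  · filter_upwards [ae_all_iff.2 fun i => (h3 i).2] with θ hθ
    exact key θ hθ

/-- If every `ω`-limit set is contained in one of finitely many invariant transitive sets, then there
are finitely many attractors, for every measure. -/
theorem finite_of_cover [MeasurableSpace X] (μ : Measure X) (g : X → X) {m : ℕ}
    (M : Fin m → Set X) (hinv : ∀ i, g '' M i = M i)
    (htr : ∀ i, ∃ x ∈ M i, M i ⊆ closure (range fun n : ℕ => g^[n] x))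
    (hcov : ∀ p, ∃ i, omegaLim g p ⊆ M i) : FiniteAttractors μ g := by
  classical
  let I := {i : Fin m // 0 < μ {p | omegaLim g p ⊆ M i}}
  let e := Fintype.equivFin I
  refine ⟨Fintype.card I, fun a => M (e.symm a).1, fun a => ⟨hinv _, htr _, (e.symm a).2⟩, ?_⟩
  have hsub : {p | ∀ a : Fin (Fintype.card I), ¬ omegaLim g p ⊆ M (e.symm a).1} ⊆
      ⋃ i ∈ {i : Fin m | μ {p | omegaLim g p ⊆ M i} = 0}, {p | omegaLim g p ⊆ M i} := by
    intro p hp
    obtain ⟨i, hi⟩ := hcov p
    refine mem_iUnion₂.2 ⟨i, ?_, hi⟩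
    by_contra hne
    have h1 : 0 < μ {p | omegaLim g p ⊆ M i} := pos_iff_ne_zero.2 hne
    refine hp (e ⟨i, h1⟩) ?_
    rw [e.symm_apply_apply]
    exact hi
  refine measure_mono_null hsub ?_
  rw [measure_biUnion_null_iff (Set.to_countable _)]
  exact fun i hi => hi

/-- If every `ω`-limit set of `F` is contained in one of finitely many closed sets which are
invariant under `F` and under the action, and transitive modulo the action, then the rotated map has
finitely many attractors, for a residual set of parameters of full measure. -/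
theorem generic_cover [CompactSpace X] [T2Space X] [SecondCountableTopology X] (ha : IsAct a)
    (hF : ∀ t x, F (a t x) = a (rmul A t) (F x))
    (hdet : A.det ≠ 0) (hA : ∀ m, 1 ≤ m → (psum A m).det ≠ 0) (hc : Continuous F)
    {m : ℕ} (M : Fin m → Set X) (hcl : ∀ i, IsClosed (M i)) (hinv : ∀ i, F '' M i = M i)
    (hMa : ∀ i, Inv a (M i)) (htr : ∀ i, TransMod a F (M i))
    (hcov : ∀ p, ∃ i, omegaLim F p ⊆ M i) :
    (∀ᶠ θ in residual (Fin k → ℝ), (∀ p, ∃ i, omegaLim (rot a F θ) p ⊆ M i) ∧
      ∀ (_ : MeasurableSpace X) (μ : Measure X), FiniteAttractors μ (rot a F θ)) ∧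
    (∀ᵐ θ : Fin k → ℝ, (∀ p, ∃ i, omegaLim (rot a F θ) p ⊆ M i) ∧
      ∀ (_ : MeasurableSpace X) (μ : Measure X), FiniteAttractors μ (rot a F θ)) := by
  have h3 := fun i => trans_generic ha hF hdet hA (hcl i) (hMa i) (hinv i) hc (htr i)
  have key : ∀ θ : Fin k → ℝ, (∀ i : Fin m, ∃ x ∈ M i,
      M i ⊆ closure (range fun j : ℕ => (rot a F θ)^[j] x)) →
      (∀ p, ∃ i, omegaLim (rot a F θ) p ⊆ M i) ∧
      ∀ (_ : MeasurableSpace X) (μ : Measure X), FiniteAttractors μ (rot a F θ) := by
    intro θ hθ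
    have h4 : ∀ p, ∃ i, omegaLim (rot a F θ) p ⊆ M i := fun p => by
      obtain ⟨i, hi⟩ := hcov p
      exact ⟨i, omega_rot ha hF (hMa i) θ p hi⟩
    exact ⟨h4, fun _ μ => finite_of_cover μ _ M (fun i => rot_image ha (hMa i) (hinv i) θ) hθ h4⟩
  constructor
  · filter_upwards [eventually_countable_forall.2 fun i => (h3 i).1] with θ hθ
    exact key θ hθ
  · filter_upwards [ae_all_iff.2 fun i => (h3 i).2] with θ hθ
    exact key θ hθ

end Pool.Agent.W5h32.PT
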