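import Pool.Agent.W5h32.PT.Cov

/-!
# Maps normalising a torus action: rotated maps

`X` is a space with an action `a` of the torus `ℝ^k / ℤ^k` and `F` is a map with
`F (a t x) = a (A t) (F x)`, where `A` is an integral matrix. We study the maps `a θ ∘ F`.
-/

set_option autoImplicit false

open Set Filter Topology MeasureTheory

namespace Pool.Agent.W5h32.PT

variable {k : ℕ} {X : Type*}

/-- A continuous action of `ℝ^k` on `X` for which the integral vectors act trivially, that is, a
continuous action of the torus `ℝ^k / ℤ^k`. -/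
structure IsAct [TopologicalSpace X] (a : (Fin k → ℝ) → X → X) : Prop where
  cont : Continuous fun p : (Fin k → ℝ) × X => a p.1 p.2
  zero : ∀ x, a 0 x = x
  add : ∀ s t x, a (s + t) x = a s (a t x)
  int : ∀ (z : Fin k → ℤ) x, a (fun i => (z i : ℝ)) x = x

/-- the map `x ↦ a θ (F x)` -/
def rot (a : (Fin k → ℝ) → X → X) (F : X → X) (θ : Fin k → ℝ) (x : X) : X := a θ (F x)

theorem rmul_add (M : Matrix (Fin k) (Fin k) ℤ) (x y : Fin k → ℝ) :
    rmul M (x + y) = rmul M x + rmul M y := by
  unfold rmul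
  rw [Matrix.mulVec_add]

theorem rmul_neg (M : Matrix (Fin k) (Fin k) ℤ) (x : Fin k → ℝ) :
    rmul M (-x) = - rmul M x := by
  unfold rmul
  rw [Matrix.mulVec_neg]

theorem rmul_mul (M P : Matrix (Fin k) (Fin k) ℤ) (x : Fin k → ℝ) :
    rmul (M * P) x = rmul M (rmul P x) := by
  unfold rmul
  rw [Matrix.mulVec_mulVec]
  congr 1
  exact Matrix.map_mul (f := Int.castRingHom ℝ)

theorem rmul_add_mat (M P : Matrix (Fin k) (Fin k) ℤ) (x : Fin k → ℝ) :
    rmul (M + P) x = rmul M x + rmul P x := by
  unfold rmul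
  rw [← Matrix.add_mulVec]
  congr 1
  exact Matrix.map_add (Int.cast : ℤ → ℝ) (fun a b => by push_cast; rfl) M P

theorem rmul_one (x : Fin k → ℝ) : rmul (1 : Matrix (Fin k) (Fin k) ℤ) x = x := by
  unfold rmul
  rw [Matrix.map_one _ Int.cast_zero Int.cast_one, Matrix.one_mulVec]

theorem rmul_zero_mat (x : Fin k → ℝ) : rmul (0 : Matrix (Fin k) (Fin k) ℤ) x = 0 := by
  unfold rmul
  rw [Matrix.map_zero _ Int.cast_zero, Matrix.zero_mulVec]

theorem rmul_cont (M : Matrix (Fin k) (Fin k) ℤ) : Continuous (rmul M) := by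
  unfold rmul
  exact Continuous.matrix_mulVec continuous_const continuous_id

section basic

variable [TopologicalSpace X] {a : (Fin k → ℝ) → X → X} (ha : IsAct a) {F : X → X}
  {A : Matrix (Fin k) (Fin k) ℤ} (hF : ∀ t x, F (a t x) = a (rmul A t) (F x))

include hF in
theorem iter_act (n : ℕ) (t : Fin k → ℝ) (x : X) :
    F^[n] (a t x) = a (rmul (A ^ n) t) (F^[n] x) := by
  induction n generalizing t x with
  | zero => simp [rmul_one]
  | succ n ih =>
    rw [Function.iterate_succ_apply, hF, ih, ← rmul_mul, ← pow_succ, Function.iterate_succ_apply]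

include ha hF in
theorem iter_rot (n : ℕ) (θ : Fin k → ℝ) (x : X) :
    (rot a F θ)^[n] x = a (rmul (psum A n) θ) (F^[n] x) := by
  induction n with
  | zero =>
    have : psum A 0 = 0 := by simp [psum]
    rw [this, rmul_zero_mat, ha.zero]
    rfl
  | succ n ih =>
    rw [Function.iterate_succ_apply', ih, rot, hF, ← ha.add, Function.iterate_succ_apply', psum_succ,
      rmul_add_mat, rmul_one, rmul_mul]

include ha in
theorem act_neg (t : Fin k → ℝ) (x : X) : a (-t) (a t x) = x := by
  rw [← ha.add, neg_add_cancel, ha.zero]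

include ha in
theorem act_neg' (t : Fin k → ℝ) (x : X) : a t (a (-t) x) = x := by
  rw [← ha.add, add_neg_cancel, ha.zero]

include ha in
theorem act_cont (t : Fin k → ℝ) : Continuous (a t) :=
  ha.cont.comp (Continuous.prodMk continuous_const continuous_id)

/-- `K` is invariant under the action -/
def Inv (a : (Fin k → ℝ) → X → X) (K : Set X) : Prop := ∀ t, ∀ x ∈ K, a t x ∈ K

include ha in
theorem inv_iff {K : Set X} (h : Inv a K) (t : Fin k → ℝ) (x : X) : a t x ∈ K ↔ x ∈ K := by
  refine ⟨fun hx => ?_, h t x⟩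
  have := h (-t) _ hx
  rwa [act_neg ha] at this

include ha in
theorem rot_image {K : Set X} (h : Inv a K) (hK : F '' K = K) (θ : Fin k → ℝ) :
    rot a F θ '' K = K := by
  ext x
  constructor
  · rintro ⟨y, hy, rfl⟩
    exact h _ _ (hK ▸ mem_image_of_mem F hy)
  · intro hx
    have h1 : a (-θ) x ∈ F '' K := by
      rw [hK]
      exact h _ _ hx
    obtain ⟨y, hy, hyx⟩ := h1
    refine ⟨y, hy, ?_⟩
    rw [rot, hyx, act_neg' ha]

theorem iter_image {K : Set X} (hK : F '' K = K) (n : ℕ) : F^[n] '' K = K := by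
  induction n with
  | zero => simp
  | succ n ih => rw [Function.iterate_succ, image_comp, hK, ih]

include ha in
theorem closure_inv {K : Set X} (h : Inv a K) : Inv a (closure K) := by
  intro t x hx
  have h1 : a t '' closure K ⊆ closure (a t '' K) := image_closure_subset_closure_image (act_cont ha t)
  have h2 : a t '' K ⊆ K := by
    rintro _ ⟨y, hy, rfl⟩
    exact h t y hy
  exact closure_mono h2 (h1 (mem_image_of_mem _ hx))

/-- `K` is transitive modulo the action: it contains a point `x` such that the points of the orbits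
(under the action) of the points `x, F x, F (F x), …` are dense in `K`. -/
def TransMod (a : (Fin k → ℝ) → X → X) (F : X → X) (K : Set X) : Prop :=
  ∃ x ∈ K, K ⊆ closure {y | ∃ (t : Fin k → ℝ) (j : ℕ), y = a t (F^[j] x)}

include hF ha in
theorem recur {K : Set X} (h : Inv a K) (hK : F '' K = K) (hc : Continuous F)
    (htr : TransMod a F K) {U W : Set X} (hU : IsOpen U) (hW : IsOpen W) (hUK : (U ∩ K).Nonempty)
    (hWK : (W ∩ K).Nonempty) (m : ℕ) : ∃ n, m ≤ n ∧ ∃ y ∈ U ∩ K, ∃ s, a s (F^[n] y) ∈ W := by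
  obtain ⟨x, hxK, hx⟩ := htr
  obtain ⟨u, huU, huK⟩ := hUK
  obtain ⟨v, hvW, hvK⟩ := hWK
  obtain ⟨_, hyU, t, i, rfl⟩ := mem_closure_iff.1 (hx huK) U hU huU
  rw [← iter_image hK (i + m)] at hvK
  obtain ⟨v', hv'K, rfl⟩ := hvK
  obtain ⟨_, hzW, s, j, rfl⟩ := mem_closure_iff.1 (hx hv'K) (F^[i + m] ⁻¹' W)
    (hW.preimage (hc.iterate _)) hvW
  refine ⟨m + j, by omega, a t (F^[i] x), ⟨hyU, ?_⟩,
    rmul (A ^ (i + m)) s - rmul (A ^ (m + j)) t, ?_⟩
  · apply h
    rw [← iter_image hK i]
    exact mem_image_of_mem _ hxK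
  · rw [iter_act hF, ← ha.add, sub_add_cancel, ← Function.iterate_add_apply]
    have hzW' : F^[i + m] (a s (F^[j] x)) ∈ W := hzW
    rw [iter_act hF, ← Function.iterate_add_apply] at hzW'
    have e : m + j + i = i + m + j := by omega
    rw [e]
    exact hzW'

end basic

section dens

variable [TopologicalSpace X] {a : (Fin k → ℝ) → X → X} (ha : IsAct a) {F : X → X}
  {A : Matrix (Fin k) (Fin k) ℤ} (hF : ∀ t x, F (a t x) = a (rmul A t) (F x))
  (hdet : A.det ≠ 0) (hA : ∀ m, 1 ≤ m → (psum A m).det ≠ 0)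

/-- the parameters for which some point of `U ∩ K` enters `W` -/
def Good (a : (Fin k → ℝ) → X → X) (F : X → X) (K U W : Set X) : Set (Fin k → ℝ) :=
  {θ | ∃ n : ℕ, ∃ y ∈ U ∩ K, (rot a F θ)^[n] y ∈ W}

include ha hF in
theorem good_open {K U W : Set X} (hW : IsOpen W) : IsOpen (Good a F K U W) := by
  have : Good a F K U W = ⋃ n : ℕ, ⋃ y ∈ U ∩ K,
      {θ | a (rmul (psum A n) θ) (F^[n] y) ∈ W} := by
    ext θ
    simp only [Good, mem_setOf_eq, mem_iUnion, iter_rot ha hF, exists_prop]
  rw [this]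
  refine isOpen_iUnion fun n => isOpen_iUnion fun y => isOpen_iUnion fun _ => ?_
  exact hW.preimage (ha.cont.comp ((rmul_cont _).prodMk continuous_const))

include ha hF hdet hA in
/-- `Good` has a positive proportion in every cube. -/
theorem good_prop {K U W : Set X} (h : Inv a K) (hK : F '' K = K) (hc : Continuous F)
    (htr : TransMod a F K) (hU : IsOpen U) (hW : IsOpen W) (hUK : (U ∩ K).Nonempty)
    (hWK : (W ∩ K).Nonempty) : ∃ c : ℝ, 0 < c ∧ ∀ (x : Fin k → ℝ) (κ : ℝ), 0 < κ →
      ENNReal.ofReal c * volume (Metric.closedBall x κ) ≤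
        volume (Good a F K U W ∩ Metric.closedBall x κ) := by
  obtain ⟨v, hvW, hvK⟩ := hWK
  have h1 : ∀ᶠ p : (Fin k → ℝ) × X in 𝓝 (0, v), a p.1 p.2 ∈ W := by
    refine ha.cont.continuousAt.eventually_mem (hW.mem_nhds ?_)
    show a 0 v ∈ W
    rwa [ha.zero]
  rw [nhds_prod_eq] at h1
  obtain ⟨P, hP, Q, hQ, hPQ⟩ := Filter.eventually_prod_iff.1 h1
  obtain ⟨δ, hδ, hδP⟩ := Metric.eventually_nhds_iff.1 hP
  obtain ⟨W', hW'Q, hW', hvW'⟩ := eventually_nhds_iff.1 hQ
  obtain ⟨c, hc0, hcov⟩ := cover_cube A hdet hA δ hδ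
  refine ⟨c, hc0, fun x κ hκ => ?_⟩
  obtain ⟨m, hm⟩ := Filter.eventually_atTop.1 (hcov κ hκ)
  obtain ⟨n, hn, y, hy, s, hs⟩ := recur ha hF h hK hc htr hU hW' hUK ⟨v, hvW', hvK⟩ m
  refine (hm n hn s x).trans (measure_mono (inter_subset_inter_left _ ?_))
  rintro θ ⟨z, hz⟩
  refine ⟨n, y, hy, ?_⟩
  set w : Fin k → ℝ := fun i => s i - rmul (psum A n) θ i - z i with hw
  rw [iter_rot ha hF]
  have e : rmul (psum A n) θ = -w + (s + (fun i => (((-z) i : ℤ) : ℝ))) := by
    ext i
    simp [hw]
    ring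
  rw [e, ha.add, ha.add, ha.int]
  refine hPQ (hδP ?_) (hW'Q _ hs)
  rw [dist_zero_right, norm_neg, pi_norm_lt_iff hδ]
  exact hz

include ha hF hdet hA in
/-- `Good` has full measure. -/
theorem good_ae {K U W : Set X} (h : Inv a K) (hK : F '' K = K) (hc : Continuous F)
    (htr : TransMod a F K) (hU : IsOpen U) (hW : IsOpen W) (hUK : (U ∩ K).Nonempty)
    (hWK : (W ∩ K).Nonempty) : ∀ᵐ θ : Fin k → ℝ, θ ∈ Good a F K U W := by
  obtain ⟨c, hc0, hcov⟩ := good_prop ha hF hdet hA h hK hc htr hU hW hUK hWK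
  have hG : MeasurableSet (Good a F K U W) := (good_open ha hF hW).measurableSet
  have h1 := Besicovitch.ae_tendsto_measure_inter_div (volume : Measure (Fin k → ℝ))
    (Good a F K U W)ᶜ
  have h2 : ∀ x : Fin k → ℝ, ¬ Tendsto (fun r => volume ((Good a F K U W)ᶜ ∩ Metric.closedBall x r) /
      volume (Metric.closedBall x r)) (𝓝[>] 0) (𝓝 1) := by
    intro x ht
    have h3 : ∀ᶠ r : ℝ in 𝓝[>] 0, volume ((Good a F K U W)ᶜ ∩ Metric.closedBall x r) /
        volume (Metric.closedBall x r) ≤ 1 - ENNReal.ofReal c := by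
      filter_upwards [self_mem_nhdsWithin] with r hr
      have hr0 : (0 : ℝ) < r := hr
      have hB0 : volume (Metric.closedBall x r) ≠ 0 := by
        have := Metric.measure_closedBall_pos (volume : Measure (Fin k → ℝ)) x hr0
        exact this.ne'
      have hB1 : volume (Metric.closedBall x r) ≠ ⊤ := measure_closedBall_lt_top.ne
      apply ENNReal.le_sub_of_add_le_right ENNReal.ofReal_ne_top
      have h4 := measure_inter_add_diff (μ := (volume : Measure (Fin k → ℝ)))
        (Metric.closedBall x r) hG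
      have h5 := hcov x r hr0
      have h6 : volume ((Good a F K U W)ᶜ ∩ Metric.closedBall x r) +
          ENNReal.ofReal c * volume (Metric.closedBall x r) ≤ volume (Metric.closedBall x r) := by
        conv_rhs => rw [← h4]
        rw [add_comm, inter_comm (Metric.closedBall x r) (Good a F K U W),
          inter_comm _ (Metric.closedBall x r), ← diff_eq]
        gcongr
      calc volume ((Good a F K U W)ᶜ ∩ Metric.closedBall x r) / volume (Metric.closedBall x r) +
            ENNReal.ofReal c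
          = (volume ((Good a F K U W)ᶜ ∩ Metric.closedBall x r) +
            ENNReal.ofReal c * volume (Metric.closedBall x r)) / volume (Metric.closedBall x r) := by
            rw [ENNReal.add_div, ENNReal.mul_div_cancel_right hB0 hB1]
        _ ≤ volume (Metric.closedBall x r) / volume (Metric.closedBall x r) := by gcongr
        _ = 1 := ENNReal.div_self hB0 hB1
    have h7 := le_of_tendsto ht h3
    have h8 : (1 : ENNReal) - ENNReal.ofReal c < 1 :=
      ENNReal.sub_lt_self ENNReal.one_ne_top one_ne_zero (ENNReal.ofReal_pos.2 hc0).ne'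
    exact absurd h7 (not_le.2 h8)
  have h9 : ∀ᵐ x ∂((volume : Measure (Fin k → ℝ)).restrict (Good a F K U W)ᶜ), False := by
    filter_upwards [h1] with x hx
    exact h2 x hx
  rw [Filter.eventually_false_iff_eq_bot, ae_eq_bot, Measure.restrict_eq_zero] at h9
  exact h9

include ha hF hdet hA in
theorem good_dense {K U W : Set X} (h : Inv a K) (hK : F '' K = K) (hc : Continuous F)
    (htr : TransMod a F K) (hU : IsOpen U) (hW : IsOpen W) (hUK : (U ∩ K).Nonempty)
    (hWK : (W ∩ K).Nonempty) : Dense (Good a F K U W) :=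
  Measure.dense_of_ae (good_ae ha hF hdet hA h hK hc htr hU hW hUK hWK)

/-- the parameters for which all the sets `Good` of basic open sets contain it -/
theorem trans_of_good [CompactSpace X] [T2Space X] [SecondCountableTopology X]
    (ha : IsAct a) {K : Set X} (hcl : IsClosed K) (hne : K.Nonempty) (hc : Continuous F)
    {θ : Fin k → ℝ} (hθ : ∀ U ∈ TopologicalSpace.countableBasis X,
      ∀ W ∈ TopologicalSpace.countableBasis X, (U ∩ K).Nonempty → (W ∩ K).Nonempty →
      θ ∈ Good a F K U W) :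
    ∃ x ∈ K, K ⊆ closure (range fun j : ℕ => (rot a F θ)^[j] x) := by
  have hcb := TopologicalSpace.countable_countableBasis X
  set B : Set (Set X) := {U ∈ TopologicalSpace.countableBasis X | (U ∩ K).Nonempty} with hB
  have hBc : B.Countable := hcb.mono (fun U hU => hU.1)
  have hBo : ∀ U ∈ B, IsOpen U := fun U hU => TopologicalSpace.isOpen_of_mem_countableBasis hU.1
  have hKc : CompactSpace K := isCompact_iff_compactSpace.1 hcl.isCompact
  have hne' : Nonempty K := hne.to_subtype
  have hrc : Continuous (rot a F θ) := (act_cont ha θ).comp hc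
  have h2 : Dense (⋂ W ∈ B, {x : K | ∃ n : ℕ, (rot a F θ)^[n] x ∈ W}) := by
    refine dense_biInter_of_isOpen (fun W hW => ?_) hBc (fun W hW => ?_)
    · have : {x : K | ∃ n : ℕ, (rot a F θ)^[n] x ∈ W} =
          ⋃ n : ℕ, {x : K | (rot a F θ)^[n] x ∈ W} := by
        ext x
        simp
      rw [this]
      exact isOpen_iUnion fun n => (hBo W hW).preimage ((hrc.iterate n).comp continuous_subtype_val)
    · rw [dense_iff_inter_open]
      intro O hO hOne
      obtain ⟨O', hO', rfl⟩ := isOpen_induced_iff.1 hO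
      obtain ⟨⟨y, hyK⟩, hy⟩ := hOne
      obtain ⟨U, hU, hyU, hUO⟩ :=
        (TopologicalSpace.isBasis_countableBasis X).exists_subset_of_mem_open hy hO'
      obtain ⟨n, q, hq, hqW⟩ := hθ U hU W hW.1 ⟨y, hyU, hyK⟩ hW.2
      exact ⟨⟨q, hq.2⟩, hUO hq.1, n, hqW⟩
  obtain ⟨x, hx⟩ := h2.nonempty
  refine ⟨x, x.2, fun y hy => ?_⟩
  rw [mem_closure_iff]
  intro O hO hyO
  obtain ⟨W, hW, hyW, hWO⟩ :=
    (TopologicalSpace.isBasis_countableBasis X).exists_subset_of_mem_open hyO hO
  have := mem_iInter₂.1 hx W ⟨hW, ⟨y, hyW, hy⟩⟩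
  obtain ⟨n, hn⟩ := this
  exact ⟨_, hWO hn, n, rfl⟩

/-- If `K` is closed, invariant and transitive modulo the action, then it is a transitive set of the
rotated map for a residual set of parameters of full measure. -/
theorem trans_generic [CompactSpace X] [T2Space X] [SecondCountableTopology X]
    (ha : IsAct a) (hF : ∀ t x, F (a t x) = a (rmul A t) (F x))
    (hdet : A.det ≠ 0) (hA : ∀ m, 1 ≤ m → (psum A m).det ≠ 0)
    {K : Set X} (hcl : IsClosed K) (h : Inv a K) (hK : F '' K = K) (hc : Continuous F)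
    (htr : TransMod a F K) :
    (∀ᶠ θ in residual (Fin k → ℝ),
      ∃ x ∈ K, K ⊆ closure (range fun j : ℕ => (rot a F θ)^[j] x)) ∧
    (∀ᵐ θ : Fin k → ℝ, ∃ x ∈ K, K ⊆ closure (range fun j : ℕ => (rot a F θ)^[j] x)) := by
  have hcb := TopologicalSpace.countable_countableBasis X
  have hBo : ∀ U ∈ TopologicalSpace.countableBasis X, IsOpen U :=
    fun U hU => TopologicalSpace.isOpen_of_mem_countableBasis hU
  have hne : K.Nonempty := ⟨_, htr.choose_spec.1⟩
  constructor
  · have h1 : ∀ᶠ θ in residual (Fin k → ℝ), ∀ U ∈ TopologicalSpace.countableBasis X,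
        ∀ W ∈ TopologicalSpace.countableBasis X, (U ∩ K).Nonempty → (W ∩ K).Nonempty →
        θ ∈ Good a F K U W := by
      rw [eventually_countable_ball hcb]
      intro U hU
      rw [eventually_countable_ball hcb]
      intro W hW
      by_cases hUK : (U ∩ K).Nonempty
      · by_cases hWK : (W ∩ K).Nonempty
        · filter_upwards [residual_of_dense_open (good_open ha hF (hBo W hW))
            (good_dense ha hF hdet hA h hK hc htr (hBo U hU) (hBo W hW) hUK hWK)] with θ hθ _ _
          exact hθ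
        · exact Filter.Eventually.of_forall fun θ _ h => absurd h hWK
      · exact Filter.Eventually.of_forall fun θ h => absurd h hUK
    filter_upwards [h1] with θ hθ
    exact trans_of_good ha hcl hne hc hθ
  · have h1 : ∀ᵐ θ : Fin k → ℝ, ∀ U ∈ TopologicalSpace.countableBasis X,
        ∀ W ∈ TopologicalSpace.countableBasis X, (U ∩ K).Nonempty → (W ∩ K).Nonempty →
        θ ∈ Good a F K U W := by
      rw [ae_ball_iff hcb]
      intro U hU
      rw [ae_ball_iff hcb]
      intro W hW
      by_cases hUK : (U ∩ K).Nonempty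
      · by_cases hWK : (W ∩ K).Nonempty
        · filter_upwards [good_ae ha hF hdet hA h hK hc htr (hBo U hU) (hBo W hW) hUK hWK]
            with θ hθ _ _
          exact hθ
        · exact Filter.Eventually.of_forall fun θ _ h => absurd h hWK
      · exact Filter.Eventually.of_forall fun θ h => absurd h hUK
    filter_upwards [h1] with θ hθ
    exact trans_of_good ha hcl hne hc hθ

end dens

end Pool.Agent.W5h32.PT
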